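import Mathlib

/-!
The hyperplane integral condition does not characterise the normal density.

For `n = 3` and `c = 0` the real analytic, strictly positive densities
`f(x) = C e^{-x²} (2 + cos 8x)` and
`g(u) = C' (e^{-u²} - √8 β₁ e^{-5u²} + 8 β₂ e^{-13u²})`, `β₁ = t² + t⁵ + t⁸`, `β₂ = t⁶ + t⁹`,
`t = e^{-1}`, satisfy the condition, although `f` is not a normal density.

On the hyperplane `x₁ + x₂ + x₃ = 0` the product `∏ f(x_j - u)` equals `e^{-3u²}` times a
trigonometric polynomial in `8u` whose `sin 24u` coefficient vanishes, and the coefficients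
`β₁, β₂` are chosen so that `∫ u g(u) e^{-3u²} sin(8u) du = ∫ u g(u) e^{-3u²} sin(16u) du = 0`.
-/

namespace Pool.Agent.Results.MP_d643ae_pr.AnalyticCounterexample

open MeasureTheory Real
open scoped ContDiff

noncomputable section

/-- A function `f` is a probability density on the real line which is strictly positive. -/
structure IsPosDensity (f : ℝ → ℝ) : Prop where
  pos : ∀ x, 0 < f x
  integrable : Integrable f
  integral_eq_one : ∫ x, f x = 1

/-- The normal density with mean `a` and standard deviation `σ`. -/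
def normalDensity (a σ : ℝ) (x : ℝ) : ℝ :=
  (√(2 * π * σ ^ 2))⁻¹ * exp (-(x - a) ^ 2 / (2 * σ ^ 2))

lemma int_cos (A b : ℝ) (hA : 0 < A) :
    ∫ u : ℝ, exp (-A * u ^ 2) * cos (b * u) = √(π / A) * exp (-b ^ 2 / (4 * A)) := by
  have h := fourierIntegral_gaussian (b := (A : ℂ)) (by simpa using hA) (b : ℂ)
  have h1 : ∀ u : ℝ, Complex.exp (Complex.I * b * u) * Complex.exp (-(A : ℂ) * u ^ 2) =
      ((exp (-A * u ^ 2) * cos (b * u) : ℝ) : ℂ) +
        ((exp (-A * u ^ 2) * sin (b * u) : ℝ) : ℂ) * Complex.I := by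
    intro u
    have h2 : Complex.I * b * u = ((b * u : ℝ) : ℂ) * Complex.I := by push_cast; ring
    rw [h2, Complex.exp_mul_I]
    push_cast
    ring
  have hint : Integrable (fun u : ℝ => Complex.exp (Complex.I * b * u) *
      Complex.exp (-(A : ℂ) * u ^ 2)) := by
    have h3 : Integrable (fun u : ℝ => Complex.exp (-(A : ℂ) * u ^ 2)) :=
      integrable_cexp_neg_mul_sq (by simpa using hA)
    refine h3.bdd_mul (c := 1) ?_ ?_
    · exact (by fun_prop : Continuous fun u : ℝ => Complex.exp (Complex.I * b * u)).aestronglyMeasurable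
    · refine ae_of_all _ fun u => ?_
      have h2 : Complex.I * b * u = ((b * u : ℝ) : ℂ) * Complex.I := by push_cast; ring
      rw [h2, Complex.norm_exp_ofReal_mul_I]
  have hre : ∫ u : ℝ, exp (-A * u ^ 2) * cos (b * u) =
      (∫ u : ℝ, Complex.exp (Complex.I * b * u) * Complex.exp (-(A : ℂ) * u ^ 2)).re := by
    have h4 := integral_re hint
    simp only [RCLike.re_to_complex] at h4
    rw [← h4]
    apply integral_congr_ae
    refine ae_of_all _ fun u => ?_
    simp only
    rw [h1 u]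
    simp only [Complex.add_re, Complex.ofReal_re, Complex.mul_re, Complex.I_re, mul_zero,
      Complex.ofReal_im, Complex.I_im, mul_one, sub_self, add_zero]
  rw [hre, h]
  have h5 : (π / (A : ℂ)) ^ (1 / 2 : ℂ) = ((√(π / A) : ℝ) : ℂ) := by
    rw [Real.sqrt_eq_rpow, Complex.ofReal_cpow (by positivity)]
    push_cast
    rfl
  have h6 : Complex.exp (-(b : ℂ) ^ 2 / (4 * A)) = ((exp (-b ^ 2 / (4 * A)) : ℝ) : ℂ) := by
    push_cast
    rfl
  rw [h5, h6, ← Complex.ofReal_mul, Complex.ofReal_re]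

lemma integrable_gauss (A : ℝ) (hA : 0 < A) : Integrable fun u : ℝ => exp (-A * u ^ 2) :=
  integrable_exp_neg_mul_sq hA

lemma integrable_gauss_mul (A : ℝ) (hA : 0 < A) (φ : ℝ → ℝ) (hφ : Continuous φ) (c : ℝ)
    (hb : ∀ u, |φ u| ≤ c) : Integrable fun u : ℝ => exp (-A * u ^ 2) * φ u := by
  refine (integrable_gauss A hA).mul_bdd (c := c) hφ.aestronglyMeasurable ?_
  exact ae_of_all _ hb

lemma integrable_u_gauss_mul (A : ℝ) (hA : 0 < A) (φ : ℝ → ℝ) (hφ : Continuous φ) (c : ℝ)
    (hb : ∀ u, |φ u| ≤ c) : Integrable fun u : ℝ => u * exp (-A * u ^ 2) * φ u := by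
  refine (integrable_mul_exp_neg_mul_sq hA).mul_bdd (c := c) hφ.aestronglyMeasurable ?_
  exact ae_of_all _ hb

lemma int_u_sin (A b : ℝ) (hA : 0 < A) :
    ∫ u : ℝ, u * exp (-A * u ^ 2) * sin (b * u) =
      b / (2 * A) * (√(π / A) * exp (-b ^ 2 / (4 * A))) := by
  have hd : ∀ u : ℝ, HasDerivAt (fun u : ℝ => exp (-A * u ^ 2) * sin (b * u))
      (-(2 * A) * (u * exp (-A * u ^ 2) * sin (b * u)) + b * (exp (-A * u ^ 2) * cos (b * u))) u := by
    intro u
    have h1 : HasDerivAt (fun u : ℝ => exp (-A * u ^ 2)) (exp (-A * u ^ 2) * (-A * (2 * u))) u := by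
      have h := ((hasDerivAt_pow 2 u).const_mul (-A)).exp
      simpa using h
    have h2 : HasDerivAt (fun u : ℝ => sin (b * u)) (cos (b * u) * b) u := by
      have h := ((hasDerivAt_id u).const_mul b).sin
      simpa using h
    refine (h1.mul h2).congr_deriv ?_
    ring
  have hsin : ∀ u : ℝ, |sin (b * u)| ≤ 1 := fun u => abs_sin_le_one _
  have hcos : ∀ u : ℝ, |cos (b * u)| ≤ 1 := fun u => abs_cos_le_one _
  have i1 := integrable_u_gauss_mul A hA (fun u => sin (b * u)) (by fun_prop) 1 hsin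
  have i2 := integrable_gauss_mul A hA (fun u => cos (b * u)) (by fun_prop) 1 hcos
  have i3 := integrable_gauss_mul A hA (fun u => sin (b * u)) (by fun_prop) 1 hsin
  have h0 := integral_eq_zero_of_hasDerivAt_of_integrable hd
    ((i1.const_mul _).add (i2.const_mul _)) i3
  rw [integral_add (i1.const_mul _) (i2.const_mul _), integral_const_mul, integral_const_mul,
    int_cos A b hA] at h0
  rw [div_mul_eq_mul_div, eq_div_iff (by positivity)]
  linarith

lemma int_odd (ψ : ℝ → ℝ) (h : ∀ u, ψ (-u) = -ψ u) : ∫ u, ψ u = 0 := by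
  have h1 : ∫ u, ψ (-u) = ∫ u, ψ u := integral_neg_eq_self ψ volume
  simp_rw [h] at h1
  rw [integral_neg] at h1
  linarith

/-! ### The two densities -/

/-- `t = e⁻¹` -/
def t : ℝ := exp (-1)
/-- first coefficient -/
def β₁ : ℝ := t ^ 2 + t ^ 5 + t ^ 8
/-- second coefficient -/
def β₂ : ℝ := t ^ 6 + t ^ 9

/-- unnormalised `f` -/
def F (x : ℝ) : ℝ := exp (-1 * x ^ 2) * (2 + cos (8 * x))

/-- unnormalised `g` -/
def G (u : ℝ) : ℝ :=
  exp (-1 * u ^ 2) - √8 * β₁ * exp (-5 * u ^ 2) + 8 * β₂ * exp (-13 * u ^ 2)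

/-- `e^{-3u²} G(u)` -/
def E (u : ℝ) : ℝ :=
  exp (-4 * u ^ 2) - √8 * β₁ * exp (-8 * u ^ 2) + 8 * β₂ * exp (-16 * u ^ 2)

lemma t_pos : 0 < t := exp_pos _

lemma t_lt : t < 0.368 := by
  have h := Real.exp_neg_one_lt_d9
  rw [t]
  linarith

lemma coef_lt : √8 * β₁ < 1 := by
  have h8 : √8 < 2.83 := by
    rw [Real.sqrt_lt' (by norm_num)]
    norm_num
  have ht := t_lt
  have ht0 := t_pos
  have h2 : t ^ 2 < 0.1355 := by nlinarith
  have h2' : 0 < t ^ 2 := by positivity
  have h4 : t ^ 4 < 0.0184 := by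
    have : t ^ 4 = t ^ 2 * t ^ 2 := by ring
    rw [this]; nlinarith
  have h5 : t ^ 5 < 0.01 := by
    have : t ^ 5 = t ^ 4 * t := by ring
    have h4' : 0 < t ^ 4 := by positivity
    rw [this]; nlinarith
  have h8' : t ^ 8 < 0.01 := by
    have : t ^ 8 = t ^ 4 * t ^ 4 := by ring
    have h4' : 0 < t ^ 4 := by positivity
    rw [this]; nlinarith
  have hβ : β₁ < 0.16 := by rw [β₁]; linarith
  have hβ0 : 0 < β₁ := by rw [β₁]; positivity
  have h80 : 0 ≤ √8 := Real.sqrt_nonneg 8
  nlinarith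

lemma G_pos (u : ℝ) : 0 < G u := by
  have h1 : exp (-5 * u ^ 2) ≤ exp (-1 * u ^ 2) := by
    apply Real.exp_le_exp.2
    nlinarith [sq_nonneg u]
  have h2 : 0 < exp (-5 * u ^ 2) := exp_pos _
  have h3 : 0 < exp (-13 * u ^ 2) := exp_pos _
  have h4 : 0 < β₂ := by rw [β₂]; have := t_pos; positivity
  have h5 := coef_lt
  have h6 : √8 * β₁ * exp (-5 * u ^ 2) < exp (-1 * u ^ 2) := by nlinarith
  rw [G]
  have h7 : 0 < 8 * β₂ * exp (-13 * u ^ 2) := by positivity
  linarith

lemma F_pos (x : ℝ) : 0 < F x := by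
  have h1 := neg_one_le_cos (8 * x)
  rw [F]
  have h2 : 0 < exp (-1 * x ^ 2) := exp_pos _
  apply mul_pos h2
  linarith

lemma F_integrable : Integrable F := by
  apply integrable_gauss_mul 1 one_pos _ (by fun_prop) 3
  intro u
  have h1 := neg_one_le_cos (8 * u)
  have h2 := cos_le_one (8 * u)
  rw [abs_le]
  constructor <;> linarith

lemma G_integrable : Integrable G := by
  have h1 := integrable_gauss 1 one_pos
  have h2 := (integrable_gauss 5 (by norm_num)).const_mul (√8 * β₁)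
  have h3 := (integrable_gauss 13 (by norm_num)).const_mul (8 * β₂)
  exact (h1.sub h2).add h3

lemma F_contDiff : ContDiff ℝ ω F := by
  unfold F
  fun_prop

lemma G_contDiff : ContDiff ℝ ω G := by
  unfold G
  fun_prop

lemma exp_mul_G (u : ℝ) : exp (-3 * u ^ 2) * G u = E u := by
  rw [G, E]
  have h1 : exp (-4 * u ^ 2) = exp (-3 * u ^ 2) * exp (-1 * u ^ 2) := by
    rw [← exp_add]; congr 1; ring
  have h2 : exp (-8 * u ^ 2) = exp (-3 * u ^ 2) * exp (-5 * u ^ 2) := by
    rw [← exp_add]; congr 1; ring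
  have h3 : exp (-16 * u ^ 2) = exp (-3 * u ^ 2) * exp (-13 * u ^ 2) := by
    rw [← exp_add]; congr 1; ring
  rw [h1, h2, h3]
  ring

lemma E_neg (u : ℝ) : E (-u) = E u := by
  simp [E]

lemma integrable_uE (φ : ℝ → ℝ) (hφ : Continuous φ) (c : ℝ) (hb : ∀ u, |φ u| ≤ c) :
    Integrable fun u : ℝ => u * E u * φ u := by
  have h1 := integrable_u_gauss_mul 4 (by norm_num) φ hφ c hb
  have h2 := (integrable_u_gauss_mul 8 (by norm_num) φ hφ c hb).const_mul (√8 * β₁)
  have h3 := (integrable_u_gauss_mul 16 (by norm_num) φ hφ c hb).const_mul (8 * β₂)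
  refine ((h1.sub h2).add h3).congr (ae_of_all _ fun u => ?_)
  simp only [Pi.add_apply, Pi.sub_apply, E]
  ring

lemma int_uE_sin (b : ℝ) : ∫ u, u * E u * sin (b * u) =
    b / (2 * 4) * (√(π / 4) * exp (-b ^ 2 / (4 * 4))) -
    √8 * β₁ * (b / (2 * 8) * (√(π / 8) * exp (-b ^ 2 / (4 * 8)))) +
    8 * β₂ * (b / (2 * 16) * (√(π / 16) * exp (-b ^ 2 / (4 * 16)))) := by
  have hsin : ∀ u : ℝ, |sin (b * u)| ≤ 1 := fun u => abs_sin_le_one _
  have hc : Continuous fun u : ℝ => sin (b * u) := by fun_prop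
  have h1 := integrable_u_gauss_mul 4 (by norm_num) _ hc 1 hsin
  have h2 := (integrable_u_gauss_mul 8 (by norm_num) _ hc 1 hsin).const_mul (√8 * β₁)
  have h3 := (integrable_u_gauss_mul 16 (by norm_num) _ hc 1 hsin).const_mul (8 * β₂)
  have h12 : Integrable fun u : ℝ => u * exp (-4 * u ^ 2) * sin (b * u) -
      √8 * β₁ * (u * exp (-8 * u ^ 2) * sin (b * u)) := h1.sub h2
  rw [← int_u_sin 4 b (by norm_num), ← int_u_sin 8 b (by norm_num),
    ← int_u_sin 16 b (by norm_num), ← integral_const_mul, ← integral_const_mul,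
    ← integral_sub h1 h2, ← integral_add h12 h3]
  apply integral_congr_ae
  refine ae_of_all _ fun u => ?_
  simp only [E]
  ring

lemma sqrts : √(π / 4) = √π / 2 ∧ √(π / 8) = √π / √8 ∧ √(π / 16) = √π / 4 := by
  refine ⟨?_, ?_, ?_⟩
  · rw [Real.sqrt_div pi_pos.le]
    congr 1
    rw [show (4 : ℝ) = 2 ^ 2 by norm_num, Real.sqrt_sq (by norm_num)]
  · rw [Real.sqrt_div pi_pos.le]
  · rw [Real.sqrt_div pi_pos.le]
    congr 1
    rw [show (16 : ℝ) = 4 ^ 2 by norm_num, Real.sqrt_sq (by norm_num)]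

lemma exp_pow (n : ℕ) : exp (-(n : ℝ)) = t ^ n := by
  rw [t, ← Real.exp_nat_mul]
  congr 1
  ring

lemma int_uE_sin8 : ∫ u, u * E u * sin (8 * u) = 0 := by
  rw [int_uE_sin, sqrts.1, sqrts.2.1, sqrts.2.2]
  have h4 : exp (-8 ^ 2 / (4 * 4)) = t ^ 4 := by rw [← exp_pow]; congr 1; norm_num
  have h2 : exp (-8 ^ 2 / (4 * 8)) = t ^ 2 := by rw [← exp_pow]; congr 1; norm_num
  have h1 : exp (-8 ^ 2 / (4 * 16)) = t ^ 1 := by rw [← exp_pow]; congr 1; norm_num
  rw [h4, h2, h1, β₁, β₂]
  have h8 : √8 ≠ 0 := by positivity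
  field_simp
  ring

lemma int_uE_sin16 : ∫ u, u * E u * sin (16 * u) = 0 := by
  rw [int_uE_sin, sqrts.1, sqrts.2.1, sqrts.2.2]
  have h4 : exp (-16 ^ 2 / (4 * 4)) = t ^ 16 := by rw [← exp_pow]; congr 1; norm_num
  have h2 : exp (-16 ^ 2 / (4 * 8)) = t ^ 8 := by rw [← exp_pow]; congr 1; norm_num
  have h1 : exp (-16 ^ 2 / (4 * 16)) = t ^ 4 := by rw [← exp_pow]; congr 1; norm_num
  rw [h4, h2, h1, β₁, β₂]
  have h8 : √8 ≠ 0 := by positivity
  field_simp
  ring

lemma trig (x y z v : ℝ) (h : x + y + z = 0) :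
    (2 + cos (x - v)) * (2 + cos (y - v)) * (2 + cos (z - v)) -
      (2 + cos (x + v)) * (2 + cos (y + v)) * (2 + cos (z + v)) =
    2 * (4 * (sin x + sin y + sin z) + (1 / 4) * (sin x * cos y * cos z + cos x * sin y * cos z +
      cos x * cos y * sin z) + (3 / 4) * (sin x * sin y * sin z)) * sin v +
    2 * (cos x * sin y + sin x * cos y + cos x * sin z + sin x * cos z + cos y * sin z +
      sin y * cos z) * sin (2 * v) := by
  have h1 : sin (x + y + z) = 0 := by rw [h, sin_zero]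
  rw [sin_add, sin_add, cos_add] at h1
  have h2 := sin_sq_add_cos_sq v
  rw [cos_sub, cos_sub, cos_sub, cos_add, cos_add, cos_add, sin_two_mul]
  linear_combination (2 * sin v * (3 / 4 - sin v ^ 2)) * h1 +
    (2 * (sin x * cos y * cos z + cos x * sin y * cos z + cos x * cos y * sin z) * sin v) * h2

/-- The condition on the hyperplane for the unnormalised functions. -/
lemma main (x : Fin 3 → ℝ) (hx : ∑ j, x j = 0) :
    Integrable (fun u => u * G u * ∏ j, F (x j - u)) ∧ ∫ u, u * G u * ∏ j, F (x j - u) = 0 := by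
  rw [Fin.sum_univ_three] at hx
  set P : ℝ → ℝ := fun u => (2 + cos (8 * x 0 - 8 * u)) * (2 + cos (8 * x 1 - 8 * u)) *
    (2 + cos (8 * x 2 - 8 * u)) with hP
  set K : ℝ := exp (-(x 0 ^ 2 + x 1 ^ 2 + x 2 ^ 2)) with hK
  have heq : (fun u => u * G u * ∏ j, F (x j - u)) = fun u => K * (u * E u * P u) := by
    funext u
    rw [Fin.prod_univ_three, F, F, F, ← exp_mul_G]
    have h1 : exp (-1 * (x 0 - u) ^ 2) * exp (-1 * (x 1 - u) ^ 2) * exp (-1 * (x 2 - u) ^ 2) =
        K * exp (-3 * u ^ 2) := by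
      rw [hK, ← exp_add, ← exp_add, ← exp_add]
      congr 1
      linear_combination (2 * u) * hx
    have h2 : ∀ y : ℝ, 8 * (y - u) = 8 * y - 8 * u := fun y => by ring
    rw [h2, h2, h2, hP]
    linear_combination (u * G u * (2 + cos (8 * x 0 - 8 * u)) * (2 + cos (8 * x 1 - 8 * u)) *
      (2 + cos (8 * x 2 - 8 * u))) * h1
  have hcb : ∀ y : ℝ, |2 + cos y| ≤ 3 := by
    intro y
    have h1 := neg_one_le_cos y
    have h2 := cos_le_one y
    rw [abs_le]
    constructor <;> linarith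
  have hPc : Continuous P := by rw [hP]; fun_prop
  have hPb : ∀ u, |P u| ≤ 27 := by
    intro u
    simp only [hP]
    rw [abs_mul, abs_mul]
    have a1 := hcb (8 * x 0 - 8 * u)
    have a2 := hcb (8 * x 1 - 8 * u)
    have a3 := hcb (8 * x 2 - 8 * u)
    have b1 := abs_nonneg (2 + cos (8 * x 0 - 8 * u))
    have b2 := abs_nonneg (2 + cos (8 * x 1 - 8 * u))
    have b3 := abs_nonneg (2 + cos (8 * x 2 - 8 * u))
    have c1 : |2 + cos (8 * x 0 - 8 * u)| * |2 + cos (8 * x 1 - 8 * u)| ≤ 3 * 3 :=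
      mul_le_mul a1 a2 b2 (by norm_num)
    have c2 := mul_le_mul c1 a3 b3 (by norm_num)
    linarith
  have hint : Integrable fun u => u * E u * P u := integrable_uE P hPc 27 hPb
  rw [heq]
  refine ⟨hint.const_mul K, ?_⟩
  rw [integral_const_mul]
  set α : ℝ := 4 * (sin (8 * x 0) + sin (8 * x 1) + sin (8 * x 2)) +
    (1 / 4) * (sin (8 * x 0) * cos (8 * x 1) * cos (8 * x 2) +
      cos (8 * x 0) * sin (8 * x 1) * cos (8 * x 2) +
      cos (8 * x 0) * cos (8 * x 1) * sin (8 * x 2)) +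
    (3 / 4) * (sin (8 * x 0) * sin (8 * x 1) * sin (8 * x 2)) with hα
  set β : ℝ := cos (8 * x 0) * sin (8 * x 1) + sin (8 * x 0) * cos (8 * x 1) +
    cos (8 * x 0) * sin (8 * x 2) + sin (8 * x 0) * cos (8 * x 2) +
    cos (8 * x 1) * sin (8 * x 2) + sin (8 * x 1) * cos (8 * x 2) with hβ
  have hsin : ∀ b : ℝ, ∀ u : ℝ, |sin (b * u)| ≤ 1 := fun b u => abs_sin_le_one _
  have i8 := (integrable_uE (fun u => sin (8 * u)) (by fun_prop) 1 (hsin 8)).const_mul α
  have i16 := (integrable_uE (fun u => sin (16 * u)) (by fun_prop) 1 (hsin 16)).const_mul β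
  have hodd : ∫ u, (u * E u * P u - α * (u * E u * sin (8 * u)) -
      β * (u * E u * sin (16 * u))) = 0 := by
    apply int_odd
    intro u
    have htr := trig (8 * x 0) (8 * x 1) (8 * x 2) (8 * u) (by linarith)
    rw [← hα, ← hβ] at htr
    have hPneg : P (-u) = (2 + cos (8 * x 0 + 8 * u)) * (2 + cos (8 * x 1 + 8 * u)) *
        (2 + cos (8 * x 2 + 8 * u)) := by
      simp only [hP]
      have h2 : ∀ y : ℝ, 8 * y - 8 * -u = 8 * y + 8 * u := fun y => by ring
      rw [h2, h2, h2]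
    have hPu : P u = (2 + cos (8 * x 0 - 8 * u)) * (2 + cos (8 * x 1 - 8 * u)) *
        (2 + cos (8 * x 2 - 8 * u)) := rfl
    rw [← hPneg, ← hPu] at htr
    have h16 : 2 * (8 * u) = 16 * u := by ring
    rw [h16] at htr
    rw [E_neg, show 8 * -u = -(8 * u) by ring, show 16 * -u = -(16 * u) by ring, sin_neg, sin_neg]
    linear_combination (u * E u) * htr
  have i9 : Integrable fun u => u * E u * P u - α * (u * E u * sin (8 * u)) := hint.sub i8
  have hsum : ∫ u, u * E u * P u = (∫ u, (u * E u * P u - α * (u * E u * sin (8 * u)) -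
      β * (u * E u * sin (16 * u)))) + α * (∫ u, u * E u * sin (8 * u)) +
      β * (∫ u, u * E u * sin (16 * u)) := by
    rw [integral_sub i9 i16, integral_sub hint i8, integral_const_mul,
      integral_const_mul]
    ring
  rw [hsum, hodd, int_uE_sin8, int_uE_sin16]
  ring

/-- **The hyperplane integral condition does not characterise normal densities.** There are
strictly positive real analytic probability densities `f` and `g` on the line such that, with
`n = 3` and `c = 0`, the integral `∫ (u - c) g(u) ∏_j f(x_j - u) du` exists and vanishes for all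
real `x_1, x_2, x_3` with `x_1 + x_2 + x_3 = 0`, but `f` is not almost everywhere equal to any
normal density. -/
theorem result : ∃ f g : ℝ → ℝ, IsPosDensity f ∧ IsPosDensity g ∧ ContDiff ℝ ω f ∧
    ContDiff ℝ ω g ∧
    (∀ x : Fin 3 → ℝ, ∑ j, x j = 0 →
      Integrable (fun u => (u - 0) * g u * ∏ j, f (x j - u)) ∧
      ∫ u, (u - 0) * g u * ∏ j, f (x j - u) = 0) ∧
    ∀ a σ : ℝ, 0 < σ → ¬ (f =ᵐ[volume] normalDensity a σ) := by
  have hIF : 0 < ∫ x, F x := by
    rw [integral_pos_iff_support_of_nonneg (fun x => (F_pos x).le) F_integrable]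
    have h : Function.support F = Set.univ := by
      ext x; simp [(F_pos x).ne']
    rw [h]; simp
  have hIG : 0 < ∫ x, G x := by
    rw [integral_pos_iff_support_of_nonneg (fun x => (G_pos x).le) G_integrable]
    have h : Function.support G = Set.univ := by
      ext x; simp [(G_pos x).ne']
    rw [h]; simp
  set cF : ℝ := (∫ x, F x)⁻¹ with hcF
  set cG : ℝ := (∫ x, G x)⁻¹ with hcG
  have hcF0 : 0 < cF := inv_pos.2 hIF
  have hcG0 : 0 < cG := inv_pos.2 hIG
  refine ⟨fun x => cF * F x, fun u => cG * G u, ⟨fun x => mul_pos hcF0 (F_pos x),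
    F_integrable.const_mul _, ?_⟩, ⟨fun x => mul_pos hcG0 (G_pos x), G_integrable.const_mul _, ?_⟩,
    contDiff_const.mul F_contDiff, contDiff_const.mul G_contDiff, ?_, ?_⟩
  · rw [integral_const_mul, hcF, inv_mul_cancel₀ hIF.ne']
  · rw [integral_const_mul, hcG, inv_mul_cancel₀ hIG.ne']
  · intro x hx
    obtain ⟨h1, h2⟩ := main x hx
    have heq : (fun u => (u - 0) * (cG * G u) * ∏ j, (cF * F (x j - u))) =
        fun u => (cG * cF ^ 3) * (u * G u * ∏ j, F (x j - u)) := by
      funext u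
      rw [Fin.prod_univ_three, Fin.prod_univ_three]
      ring
    rw [heq]
    refine ⟨h1.const_mul _, ?_⟩
    rw [integral_const_mul, h2, mul_zero]
  · intro a σ hσ hae
    have hcont1 : Continuous fun x => cF * F x := by
      unfold F
      fun_prop
    have hcont2 : Continuous (normalDensity a σ) := by
      unfold normalDensity
      fun_prop
    have heq : (fun x => cF * F x) = normalDensity a σ :=
      Continuous.ae_eq_iff_eq volume hcont1 hcont2 |>.1 hae
    set N : ℝ := (√(2 * π * σ ^ 2))⁻¹ with hN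
    have hN0 : 0 < N := by rw [hN]; positivity
    have hx : ∀ x, cF * (2 + cos (8 * x)) = N * exp (x ^ 2 - (x - a) ^ 2 / (2 * σ ^ 2)) := by
      intro x
      have h1 := congrFun heq x
      simp only [F, normalDensity] at h1
      rw [sub_eq_add_neg, exp_add, ← neg_div]
      have h2 : exp (x ^ 2) * exp (-1 * x ^ 2) = 1 := by
        rw [← exp_add]; simp
      calc cF * (2 + cos (8 * x)) =
          exp (x ^ 2) * (cF * (exp (-1 * x ^ 2) * (2 + cos (8 * x)))) := by
            linear_combination (-(cF * (2 + cos (8 * x)))) * h2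
        _ = _ := by rw [h1]; ring
    have e0 := hx 0
    have e1 := hx (π / 4)
    have e2 := hx (2 * (π / 4))
    have e3 := hx (π / 8)
    rw [mul_zero, cos_zero] at e0
    rw [show 8 * (π / 4) = 2 * π by ring, cos_two_pi] at e1
    rw [show 8 * (2 * (π / 4)) = 2 * π + 2 * π by ring, cos_add_two_pi, cos_two_pi] at e2
    rw [show 8 * (π / 8) = π by ring, cos_pi] at e3
    rw [e0] at e1 e2
    have q1 := Real.exp_injective (mul_left_cancel₀ hN0.ne' e1)
    have q2 := Real.exp_injective (mul_left_cancel₀ hN0.ne' e2)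
    have hπ := pi_pos
    set s : ℝ := 1 / (2 * σ ^ 2) with hs
    have hdiv : ∀ y : ℝ, y / (2 * σ ^ 2) = y * s := by
      intro y; rw [hs]; ring
    rw [hdiv, hdiv] at q1 q2
    have hs1 : s = 1 := by
      have h1 : (π / 4) ^ 2 * (1 - s) = 0 := by nlinarith
      rcases mul_eq_zero.1 h1 with h | h
      · have : 0 < (π / 4) ^ 2 := by positivity
        linarith
      · linarith
    rw [hs1] at q1
    have ha : a = 0 := by
      have h1 : (π / 4) * a = 0 := by nlinarith
      rcases mul_eq_zero.1 h1 with h | h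
      · linarith
      · exact h
    rw [hdiv, hs1, ha] at e3
    rw [hdiv, hs1, ha] at e0
    simp only [sub_zero, mul_one, sub_self, exp_zero] at e0 e3
    linarith

end

end Pool.Agent.Results.MP_d643ae_pr.AnalyticCounterexample
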